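import Mathlib
import Pool.Agent.H720R3.Blocks

/-!
Algebraic certificates for members of families of subsets of `[N]^d`, and the number of sets which
are disjoint from few diagonal blocks.
-/

set_option autoImplicit false

namespace Pool.Agent.H281P

open Finset Pool.Agent.H720R3

/-- The polynomial of degree at most `D` with coefficients `c` and values in the abelian group `G`:
`A ↦ ∑ c T`, the sum over all subsets `T ⊆ A` with at most `D` elements. -/
def poly {E G : Type} [AddCommGroup G] (D : ℕ) (c : Finset E → G) (A : Finset E) : G :=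
  ∑ T ∈ A.powerset.filter (fun T => T.card ≤ D), c T

/-- The member `A` of `F` has a certificate of degree `D`: a function of degree at most `D` with
values in some abelian group which does not vanish at `A` and vanishes outside of `F`. -/
def HasCert {E : Type} (D : ℕ) (F : Finset (Finset E)) (A : Finset E) : Prop :=
  ∃ (G : Type) (_ : AddCommGroup G) (c : Finset E → G), poly D c A ≠ 0 ∧
    ∀ B, poly D c B ≠ 0 → B ∈ F

section alt

variable {α G : Type} [DecidableEq α] [AddCommGroup G]

/-- a top difference of a function of small degree vanishes -/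
lemma alt_zero (d D : ℕ) (Γ : Finset α) (A : Finset (Fin d → α)) (c : Finset (Fin d → α) → G)
    (hΓ : d * D < Γ.card) :
    ∑ γ ∈ Γ.powerset, ((-1 : ℤ) ^ γ.card) • poly D c (A ∪ pw d γ) = 0 := by
  classical
  have h1 : ∀ γ ∈ Γ.powerset, ((-1 : ℤ) ^ γ.card) • poly D c (A ∪ pw d γ) =
      ∑ X ∈ (A ∪ pw d Γ).powerset.filter (fun X => X.card ≤ D),
        (if X ⊆ A ∪ pw d γ then ((-1 : ℤ) ^ γ.card) • c X else 0) := by
    intro γ hγ
    rw [mem_powerset] at hγ
    have hsub : A ∪ pw d γ ⊆ A ∪ pw d Γ := by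
      refine union_subset_union_right ?_
      intro x hx
      rw [mem_pw] at hx ⊢
      exact fun i => hγ (hx i)
    unfold poly
    rw [smul_sum, ← Finset.sum_filter]
    refine Finset.sum_congr ?_ fun _ _ => rfl
    ext X
    simp only [mem_filter, mem_powerset]
    constructor
    · rintro ⟨h, h'⟩
      exact ⟨⟨h.trans hsub, h'⟩, h⟩
    · rintro ⟨⟨_, h'⟩, h⟩
      exact ⟨h, h'⟩
  rw [Finset.sum_congr rfl h1, Finset.sum_comm]
  refine Finset.sum_eq_zero fun X hX => ?_
  rw [mem_filter, mem_powerset] at hX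
  -- an element of `Γ` which does not occur in `X \ A`
  set U : Finset α := (X \ A).biUnion fun x => univ.image x with hU
  have hUc : U.card ≤ d * D := by
    calc U.card ≤ ∑ x ∈ X \ A, (univ.image x).card := card_biUnion_le
      _ ≤ ∑ _x ∈ X \ A, d := by
          refine Finset.sum_le_sum fun x _ => ?_
          exact card_image_le.trans (by simp)
      _ = (X \ A).card * d := by rw [sum_const, smul_eq_mul]
      _ ≤ D * d := Nat.mul_le_mul_right _ ((card_le_card sdiff_subset).trans hX.2)
      _ = d * D := Nat.mul_comm _ _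
  obtain ⟨i, hi, hiU⟩ : ∃ i ∈ Γ, i ∉ U := by
    by_contra hc
    push Not at hc
    exact absurd (card_le_card hc) (by omega)
  have hne : ∀ x ∈ X, x ∉ A → ∀ l, x l ≠ i := by
    intro x hx hxA l h
    refine hiU ?_
    rw [hU, mem_biUnion]
    exact ⟨x, mem_sdiff.2 ⟨hx, hxA⟩, mem_image.2 ⟨l, mem_univ _, h⟩⟩
  have hiff : ∀ γ γ' : Finset α, (∀ j, j ≠ i → (j ∈ γ ↔ j ∈ γ')) →
      (X ⊆ A ∪ pw d γ ↔ X ⊆ A ∪ pw d γ') := by
    intro γ γ' h
    refine forall₂_congr fun x hx => ?_
    rw [mem_union, mem_union, mem_pw, mem_pw]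
    by_cases hxA : x ∈ A
    · simp [hxA]
    · simp only [hxA, false_or]
      exact forall_congr' fun l => h _ (hne x hx hxA l)
  refine Finset.sum_involution (fun γ _ => if i ∈ γ then γ.erase i else insert i γ) ?_ ?_ ?_ ?_
  · intro γ hγ
    by_cases hiγ : i ∈ γ
    · rw [if_pos hiγ]
      have h2 : (X ⊆ A ∪ pw d γ ↔ X ⊆ A ∪ pw d (γ.erase i)) :=
        hiff _ _ fun j hj => by simp [hj]
      by_cases h3 : X ⊆ A ∪ pw d γ
      · rw [if_pos h3, if_pos (h2.1 h3), ← add_smul]
        have h4 : (-1 : ℤ) ^ γ.card = - (-1 : ℤ) ^ (γ.erase i).card := by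
          rw [← Finset.card_erase_add_one hiγ, pow_succ]; ring
        rw [h4, neg_add_cancel, zero_smul]
      · rw [if_neg h3, if_neg fun h => h3 (h2.2 h), add_zero]
    · rw [if_neg hiγ]
      have h2 : (X ⊆ A ∪ pw d γ ↔ X ⊆ A ∪ pw d (insert i γ)) :=
        hiff _ _ fun j hj => by simp [hj]
      by_cases h3 : X ⊆ A ∪ pw d γ
      · rw [if_pos h3, if_pos (h2.1 h3), ← add_smul]
        have h4 : (-1 : ℤ) ^ (insert i γ).card = - (-1 : ℤ) ^ γ.card := by
          rw [Finset.card_insert_of_notMem hiγ, pow_succ]; ring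
        rw [h4, add_neg_cancel, zero_smul]
      · rw [if_neg h3, if_neg fun h => h3 (h2.2 h), add_zero]
  · intro γ _ _
    by_cases hiγ : i ∈ γ
    · rw [if_pos hiγ]
      intro h
      rw [← h] at hiγ
      exact absurd hiγ (notMem_erase i γ)
    · rw [if_neg hiγ]
      intro h
      exact hiγ (h ▸ mem_insert_self i γ)
  · intro γ hγ
    rw [mem_powerset] at hγ
    by_cases hiγ : i ∈ γ
    · rw [if_pos hiγ, mem_powerset]
      exact (erase_subset _ _).trans hγ
    · rw [if_neg hiγ, mem_powerset]
      exact insert_subset hi hγ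
  · intro γ _
    by_cases hiγ : i ∈ γ
    · simp only [if_pos hiγ, notMem_erase, if_false]
      exact insert_erase hiγ
    · simp only [if_neg hiγ, mem_insert_self, if_true]
      exact erase_insert hiγ

/-- the members which differ from `A` by the `d`-th power of a set in `Γ` -/
lemma exists_move {d D : ℕ} (hd : 1 ≤ d) {F : Finset (Finset (Fin d → α))}
    {A : Finset (Fin d → α)} (hA : HasCert D F A) (Γ : Finset α) (hΓ : d * D < Γ.card) :
    ∃ γ ⊆ Γ, γ.Nonempty ∧ A ∪ pw d γ ∈ F := by
  classical
  obtain ⟨G, _, c, hc, hF⟩ := hA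
  by_contra hcon
  push Not at hcon
  have h1 := alt_zero d D Γ A c hΓ
  rw [Finset.sum_eq_single_of_mem ∅ (empty_mem_powerset _)] at h1
  · have h2 : pw d (∅ : Finset α) = ∅ := by
      ext x
      simp only [mem_pw, notMem_empty, iff_false]
      intro h
      exact h ⟨0, hd⟩
    rw [h2, union_empty, card_empty, pow_zero, one_smul] at h1
    exact hc h1
  · intro γ hγ hne
    rw [mem_powerset] at hγ
    have h3 := hcon γ hγ (nonempty_iff_ne_empty.2 hne)
    have h4 : poly D c (A ∪ pw d γ) = 0 := by
      by_contra h5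
      exact h3 (hF _ h5)
    rw [h4, smul_zero]

end alt

section count

variable {E : Type} [Fintype E] [DecidableEq E]

/-- the sets disjoint from `C` -/
lemma sum_disj (C : Finset E) (f : Finset E → ℝ) (hf : ∀ A, f A = f (A \ C)) :
    2 ^ C.card * ∑ A : Finset E, (if Disjoint A C then f A else 0) = ∑ A : Finset E, f A := by
  classical
  have h1 : ∑ A : Finset E, f A =
      ∑ B ∈ univ.filter (fun B : Finset E => Disjoint B C),
        ∑ A ∈ univ.filter (fun A : Finset E => A \ C = B), f A := by
    rw [Finset.sum_fiberwise_of_maps_to]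
    intro A _
    rw [mem_filter]
    exact ⟨mem_univ _, sdiff_disjoint⟩
  rw [h1, Finset.mul_sum, ← Finset.sum_filter_add_sum_filter_not univ (fun B => Disjoint B C)
    (fun A => 2 ^ C.card * (if Disjoint A C then f A else 0))]
  have h0 : ∑ A ∈ univ.filter (fun B : Finset E => ¬ Disjoint B C),
      2 ^ C.card * (if Disjoint A C then f A else 0) = 0 := by
    refine Finset.sum_eq_zero fun A hA => ?_
    rw [mem_filter] at hA
    rw [if_neg hA.2, mul_zero]
  rw [h0, add_zero]
  refine Finset.sum_congr rfl fun B hB => ?_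
  rw [mem_filter] at hB
  rw [if_pos hB.2]
  have h2 : ∀ A ∈ univ.filter (fun A : Finset E => A \ C = B), f A = f B := by
    intro A hA
    rw [mem_filter] at hA
    rw [hf A, hA.2]
  rw [Finset.sum_congr rfl h2, Finset.sum_const, nsmul_eq_mul]
  congr 1
  have h3 : (univ.filter fun A : Finset E => A \ C = B) = C.powerset.image fun X => B ∪ X := by
    ext A
    simp only [mem_filter, mem_univ, true_and, mem_image, mem_powerset]
    constructor
    · intro h
      refine ⟨A ∩ C, inter_subset_right, ?_⟩
      rw [← h]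
      exact sdiff_union_inter A C
    · rintro ⟨X, hX, rfl⟩
      rw [union_sdiff_distrib, sdiff_eq_empty_iff_subset.2 hX, union_empty]
      exact sdiff_eq_self_of_disjoint hB.2
  rw [h3, card_image_of_injOn, card_powerset]
  · push_cast; rfl
  · intro X hX Y hY hXY
    rw [mem_coe, mem_powerset] at hX hY
    have key : ∀ Z ⊆ C, (B ∪ Z) ∩ C = Z := by
      intro Z hZ
      rw [union_inter_distrib_right, disjoint_iff_inter_eq_empty.1 hB.2, empty_union]
      exact inter_eq_left.2 hZ
    have h4 : (B ∪ X) ∩ C = (B ∪ Y) ∩ C := by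
      simp only at hXY
      rw [hXY]
    rwa [key X hX, key Y hY] at h4

/-- one step of the product formula -/
lemma sum_step (C : Finset E) (f : Finset E → ℝ) (hf : ∀ A, f A = f (A \ C)) :
    ∑ A : Finset E, (if Disjoint A C then (1 / 2 : ℝ) else 1) * f A =
      (1 - 1 / (2 * 2 ^ C.card)) * ∑ A : Finset E, f A := by
  have h1 := sum_disj C f hf
  have h2 : ∀ A : Finset E, (if Disjoint A C then (1 / 2 : ℝ) else 1) * f A =
      f A - 1 / 2 * (if Disjoint A C then f A else 0) := by
    intro A
    split_ifs <;> ring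
  rw [Finset.sum_congr rfl fun A _ => h2 A, Finset.sum_sub_distrib, ← Finset.mul_sum, ← h1]
  have : (2 : ℝ) ^ C.card ≠ 0 := by positivity
  field_simp

/-- the generating function of the number of blocks disjoint from a set -/
lemma sum_prod {J : Type} [DecidableEq J] (C : J → Finset E) (b : ℕ) (hc : ∀ j, (C j).card = b)
    (hdisj : ∀ i j, i ≠ j → Disjoint (C i) (C j)) (I : Finset J) :
    ∑ A : Finset E, ∏ j ∈ I, (if Disjoint A (C j) then (1 / 2 : ℝ) else 1) =
      (1 - 1 / (2 * 2 ^ b)) ^ I.card * 2 ^ Fintype.card E := by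
  classical
  induction I using Finset.induction_on with
  | empty => simp
  | insert i I hi ih =>
    have h1 : ∀ A : Finset E, ∏ j ∈ insert i I, (if Disjoint A (C j) then (1 / 2 : ℝ) else 1) =
        (if Disjoint A (C i) then (1 / 2 : ℝ) else 1) *
          ∏ j ∈ I, (if Disjoint A (C j) then (1 / 2 : ℝ) else 1) :=
      fun A => Finset.prod_insert hi
    rw [Finset.sum_congr rfl fun A _ => h1 A,
      sum_step (C i) (fun A => ∏ j ∈ I, (if Disjoint A (C j) then (1 / 2 : ℝ) else 1)), ih, hc,
      Finset.card_insert_of_notMem hi]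
    · ring
    · intro A
      refine Finset.prod_congr rfl fun j hj => ?_
      have hij : Disjoint (C i) (C j) := hdisj i j fun h => hi (h ▸ hj)
      have h2 : Disjoint A (C j) ↔ Disjoint (A \ C i) (C j) := by
        constructor
        · exact fun h => h.mono_left sdiff_subset
        · intro h
          rw [Finset.disjoint_left] at h ⊢
          intro x hx hxj
          exact h (mem_sdiff.2 ⟨hx, fun hxi => (Finset.disjoint_left.1 hij) hxi hxj⟩) hxj
      by_cases h3 : Disjoint A (C j)
      · rw [if_pos h3, if_pos (h2.1 h3)]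
      · rw [if_neg h3, if_neg fun h => h3 (h2.2 h)]

/-- the number of the blocks disjoint from `A` -/
def emp {K : ℕ} (C : Fin K → Finset E) (A : Finset E) : ℕ :=
  (univ.filter fun j => Disjoint A (C j)).card

/-- few sets are disjoint from less than the expected number of blocks -/
lemma few {K : ℕ} (C : Fin K → Finset E) (b : ℕ) (hc : ∀ j, (C j).card = b)
    (hdisj : ∀ i j, i ≠ j → Disjoint (C i) (C j)) :
    ((univ.filter fun A : Finset E => (emp C A : ℝ) < K / (4 * 2 ^ b)).card : ℝ) ≤
      Real.exp (-(K / (4 * 2 ^ b))) * 2 ^ Fintype.card E := by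
  classical
  set s : ℝ := K / (4 * 2 ^ b) with hs
  have hs0 : 0 ≤ s := by positivity
  have h1 := sum_prod C b hc hdisj univ
  rw [Finset.card_univ, Fintype.card_fin] at h1
  have hprod : ∀ A : Finset E, ∏ j : Fin K, (if Disjoint A (C j) then (1 / 2 : ℝ) else 1) =
      Real.exp (-(Real.log 2 * emp C A)) := by
    intro A
    rw [Finset.prod_ite, Finset.prod_const, Finset.prod_const_one, mul_one]
    have : (1 / 2 : ℝ) = Real.exp (-Real.log 2) := by
      rw [Real.exp_neg, Real.exp_log (by norm_num)]; norm_num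
    rw [this, ← Real.exp_nat_mul]
    congr 1
    unfold emp
    ring
  have hl2 : Real.log 2 ≤ 1 := by
    have := Real.log_two_lt_d9
    linarith
  have hl0 : 0 < Real.log 2 := Real.log_pos (by norm_num)
  have h2 : ((univ.filter fun A : Finset E => (emp C A : ℝ) < s).card : ℝ) * Real.exp (-s) ≤
      (1 - 1 / (2 * 2 ^ b)) ^ K * 2 ^ Fintype.card E := by
    rw [← h1, ← nsmul_eq_mul, ← Finset.sum_const]
    refine (Finset.sum_le_sum fun A hA => ?_).trans
      (Finset.sum_le_sum_of_subset_of_nonneg (Finset.filter_subset _ _) fun A _ _ => ?_)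
    · rw [mem_filter] at hA
      rw [hprod, Real.exp_le_exp]
      have : Real.log 2 * emp C A ≤ 1 * s :=
        mul_le_mul hl2 hA.2.le (Nat.cast_nonneg _) (by norm_num)
      linarith
    · rw [hprod]
      exact (Real.exp_pos _).le
  have h3 : (1 - 1 / (2 * 2 ^ b) : ℝ) ^ K ≤ Real.exp (-(2 * s)) := by
    have h4 : (1 - 1 / (2 * 2 ^ b) : ℝ) ≤ Real.exp (-(1 / (2 * 2 ^ b))) := by
      have := Real.add_one_le_exp (-(1 / (2 * 2 ^ b) : ℝ))
      linarith
    have h5 : (0 : ℝ) ≤ 1 - 1 / (2 * 2 ^ b) := by
      have : (1 : ℝ) / (2 * 2 ^ b) ≤ 1 := by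
        rw [div_le_one (by positivity)]
        have : (1 : ℝ) ≤ 2 ^ b := one_le_pow₀ (by norm_num)
        linarith
      linarith
    refine (pow_le_pow_left₀ h5 h4 K).trans (le_of_eq ?_)
    rw [← Real.exp_nat_mul]
    congr 1
    rw [hs]
    field_simp
    ring
  have h6 : (0 : ℝ) ≤ 2 ^ Fintype.card E := by positivity
  have h7 : ((univ.filter fun A : Finset E => (emp C A : ℝ) < s).card : ℝ) * Real.exp (-s) ≤
      (Real.exp (-s) * 2 ^ Fintype.card E) * Real.exp (-s) := by
    refine h2.trans ((mul_le_mul_of_nonneg_right h3 h6).trans (le_of_eq ?_))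
    rw [show -(2 * s) = -s + -s by ring, Real.exp_add]
    ring
  exact le_of_mul_le_mul_right h7 (Real.exp_pos _)

end count

end Pool.Agent.H281P
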